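import Mathlib

namespace Pool.Agent.Results.MP_3cd2af_an.Order

open Set Dynamics Filter Topology ExpGrowth

/-- the logistic map `f_a(x) = a x (1 - x)` -/
def logi (a x : ℝ) : ℝ := a * x * (1 - x)

noncomputable def B : ℝ → ℝ := logi 1 ∘ logi (11 / 4) ∘ logi 4
noncomputable def A : ℝ → ℝ := logi 1 ∘ logi 4 ∘ logi (11 / 4)

lemma logi_mem {a x : ℝ} (h0 : 0 ≤ a) (_h4 : a ≤ 4) (hx : x ∈ Icc (0 : ℝ) 1) :
    logi a x ∈ Icc (0 : ℝ) (a / 4) := by
  unfold logi
  constructor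
  · exact mul_nonneg (mul_nonneg h0 hx.1) (by linarith [hx.2])
  · nlinarith [mul_nonneg h0 (sq_nonneg (x - 1 / 2))]

lemma logi_sub (a x y : ℝ) : |logi a x - logi a y| = |a * (1 - x - y)| * |x - y| := by
  rw [← abs_mul]; congr 1; unfold logi; ring

lemma logi_lip {a x y c : ℝ} (h : |a * (1 - x - y)| ≤ c) : |logi a x - logi a y| ≤ c * |x - y| := by
  rw [logi_sub]; exact mul_le_mul_of_nonneg_right h (abs_nonneg _)

lemma B_mem {x : ℝ} (hx : x ∈ Icc (0 : ℝ) 1) : B x ∈ Icc (0 : ℝ) (1 / 4) := by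
  have h1 := logi_mem (a := 4) (by norm_num) (by norm_num) hx
  have h2 := logi_mem (a := 11 / 4) (x := logi 4 x) (by norm_num) (by norm_num)
    ⟨h1.1, by linarith [h1.2]⟩
  exact logi_mem (a := 1) (x := logi (11 / 4) (logi 4 x)) (by norm_num) (by norm_num)
    ⟨h2.1, by linarith [h2.2]⟩

lemma B_mem' {x : ℝ} (hx : x ∈ Icc (0 : ℝ) 1) : B x ∈ Icc (0 : ℝ) 1 :=
  ⟨(B_mem hx).1, by linarith [(B_mem hx).2]⟩

lemma Bk_mem {x : ℝ} (hx : x ∈ Icc (0 : ℝ) 1) (k : ℕ) : B^[k] x ∈ Icc (0 : ℝ) 1 :=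
  MapsTo.iterate (fun _ h => B_mem' h) k hx

lemma B_lip {x y : ℝ} (hx : x ∈ Icc (0 : ℝ) 1) (hy : y ∈ Icc (0 : ℝ) 1) :
    |B x - B y| ≤ 11 * |x - y| := by
  have h1 := logi_mem (a := 4) (by norm_num) (by norm_num) hx
  have h1' := logi_mem (a := 4) (by norm_num) (by norm_num) hy
  have h2 := logi_mem (a := 11 / 4) (x := logi 4 x) (by norm_num) (by norm_num)
    ⟨h1.1, by linarith [h1.2]⟩
  have h2' := logi_mem (a := 11 / 4) (x := logi 4 y) (by norm_num) (by norm_num)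
    ⟨h1'.1, by linarith [h1'.2]⟩
  have a := logi_lip (a := 4) (x := x) (y := y) (c := 4)
    (abs_le.mpr ⟨by linarith [hx.2, hy.2], by linarith [hx.1, hy.1]⟩)
  have b := logi_lip (a := 11 / 4) (x := logi 4 x) (y := logi 4 y) (c := 11 / 4)
    (abs_le.mpr ⟨by linarith [h1.2, h1'.2], by linarith [h1.1, h1'.1]⟩)
  have c := logi_lip (a := 1) (x := logi (11 / 4) (logi 4 x)) (y := logi (11 / 4) (logi 4 y))
    (c := 1) (abs_le.mpr ⟨by linarith [h2.2, h2'.2], by linarith [h2.1, h2'.1]⟩)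
  simp only [B, Function.comp_apply]
  linarith

lemma I_facts {x : ℝ} (hx : x ∈ Icc (21 / 100 : ℝ) (1 / 4)) :
    logi 4 x ∈ Icc (66 / 100 : ℝ) (3 / 4) ∧
      logi (11 / 4) (logi 4 x) ∈ Icc (1 / 2 : ℝ) (62 / 100) := by
  have h1 : logi 4 x ∈ Icc (66 / 100 : ℝ) (3 / 4) := by
    unfold logi; constructor <;> nlinarith [hx.1, hx.2]
  refine ⟨h1, ?_⟩
  generalize logi 4 x = u at h1
  unfold logi; constructor <;> nlinarith [h1.1, h1.2]

lemma I_inv {x : ℝ} (hx : x ∈ Icc (21 / 100 : ℝ) (1 / 4)) : B x ∈ Icc (21 / 100 : ℝ) (1 / 4) := by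
  have h := (I_facts hx).2
  simp only [B, Function.comp_apply]
  generalize logi (11 / 4) (logi 4 x) = z at h
  unfold logi; constructor <;> nlinarith [h.1, h.2, sq_nonneg (z - 1 / 2)]

lemma I_lip {x y : ℝ} (hx : x ∈ Icc (21 / 100 : ℝ) (1 / 4)) (hy : y ∈ Icc (21 / 100 : ℝ) (1 / 4)) :
    |B x - B y| ≤ |x - y| := by
  obtain ⟨h1, h2⟩ := I_facts hx
  obtain ⟨h1', h2'⟩ := I_facts hy
  have a := logi_lip (a := 4) (x := x) (y := y) (c := 232 / 100)
    (abs_le.mpr ⟨by linarith [hx.2, hy.2], by linarith [hx.1, hy.1]⟩)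
  have b := logi_lip (a := 11 / 4) (x := logi 4 x) (y := logi 4 y) (c := 11 / 8)
    (abs_le.mpr ⟨by linarith [h1.2, h1'.2], by linarith [h1.1, h1'.1]⟩)
  have c := logi_lip (a := 1) (x := logi (11 / 4) (logi 4 x)) (y := logi (11 / 4) (logi 4 y))
    (c := 24 / 100) (abs_le.mpr ⟨by linarith [h2.2, h2'.2], by linarith [h2.1, h2'.1]⟩)
  simp only [B, Function.comp_apply]
  linarith [abs_nonneg (x - y)]

lemma step {x : ℝ} (hx : x ∈ Icc (0 : ℝ) (1 / 4)) :
    B x ∈ Icc (21 / 100 : ℝ) (1 / 4) ∨ 4 * x ≤ B x := by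
  have hu : logi 4 x ∈ Icc (0 : ℝ) (3 / 4) ∧ 3 * x ≤ logi 4 x := by
    unfold logi; refine ⟨⟨?_, ?_⟩, ?_⟩ <;> nlinarith [hx.1, hx.2]
  simp only [B, Function.comp_apply]
  generalize logi 4 x = u at hu
  obtain ⟨⟨u0, u1⟩, u2⟩ := hu
  have hz := logi_mem (a := 11 / 4) (x := u) (by norm_num) (by norm_num) ⟨u0, by linarith⟩
  by_cases h : 3 / 10 ≤ logi (11 / 4) u
  · left
    generalize logi (11 / 4) u = z at h hz
    unfold logi; constructor <;> nlinarith [hz.2, sq_nonneg (z - 1 / 2)]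
  · right
    have h1 : u ≤ 1 / 4 := by
      by_contra hc
      apply h
      unfold logi; nlinarith
    have h2 : 2 * u ≤ logi (11 / 4) u := by unfold logi; nlinarith
    generalize logi (11 / 4) u = z at h hz h2
    unfold logi; nlinarith [hx.1]

lemma enter (K : ℕ) {x : ℝ} (hx : x ∈ Icc (0 : ℝ) (1 / 4)) :
    B^[K] x ∈ Icc (21 / 100 : ℝ) (1 / 4) ∨ (4 ^ K * x ≤ B^[K] x ∧ B^[K] x ≤ 1 / 4) := by
  induction K with
  | zero => right; simpa using hx.2
  | succ K ih =>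
    rw [Function.iterate_succ_apply']
    rcases ih with h | h
    · exact Or.inl (I_inv h)
    · have h0 : 0 ≤ B^[K] x := le_trans (by have := hx.1; positivity) h.1
      rcases step ⟨h0, h.2⟩ with h1 | h1
      · exact Or.inl h1
      · right
        refine ⟨by rw [pow_succ]; linarith [h.1], (B_mem ⟨h0, by linarith [h.2]⟩).2⟩

lemma shadow {e : ℝ} (he : 0 < e) : ∃ d > 0, ∀ u v : ℝ, u ∈ Icc e (1 / 4) → v ∈ Icc e (1 / 4) →
    |u - v| < d → ∀ j : ℕ, |B^[j] u - B^[j] v| < e := by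
  obtain ⟨K, hK⟩ := pow_unbounded_of_one_lt (1 / 4 / e) (show (1 : ℝ) < 4 by norm_num)
  rw [div_lt_iff₀ he] at hK
  refine ⟨e / 11 ^ K, by positivity, fun u v hu hv huv => ?_⟩
  have hu' : u ∈ Icc (0 : ℝ) 1 := ⟨by linarith [hu.1], by linarith [hu.2]⟩
  have hv' : v ∈ Icc (0 : ℝ) 1 := ⟨by linarith [hv.1], by linarith [hv.2]⟩
  have lip : ∀ j : ℕ, |B^[j] u - B^[j] v| ≤ 11 ^ j * |u - v| := by
    intro j
    induction j with
    | zero => simp
    | succ j ih =>
      rw [Function.iterate_succ_apply', Function.iterate_succ_apply', pow_succ]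
      linarith [B_lip (Bk_mem hu' j) (Bk_mem hv' j)]
  have small : ∀ j ≤ K, |B^[j] u - B^[j] v| < e := by
    intro j hj
    rw [lt_div_iff₀ (by positivity)] at huv
    have : (11 : ℝ) ^ j ≤ 11 ^ K := pow_le_pow_right₀ (by norm_num) hj
    nlinarith [lip j, abs_nonneg (u - v)]
  have ent : ∀ w ∈ Icc e (1 / 4), B^[K] w ∈ Icc (21 / 100 : ℝ) (1 / 4) := by
    intro w hw
    refine (enter K ⟨by linarith [hw.1], hw.2⟩).resolve_right fun h => ?_
    have : 4 ^ K * e ≤ 4 ^ K * w := mul_le_mul_of_nonneg_left hw.1 (by positivity)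
    linarith [h.1, h.2]
  have big : ∀ i : ℕ, B^[i + K] u ∈ Icc (21 / 100 : ℝ) (1 / 4) ∧
      B^[i + K] v ∈ Icc (21 / 100 : ℝ) (1 / 4) ∧ |B^[i + K] u - B^[i + K] v| < e := by
    intro i
    induction i with
    | zero => simpa only [zero_add] using ⟨ent u hu, ent v hv, small K le_rfl⟩
    | succ i ih =>
      rw [show i + 1 + K = (i + K) + 1 by ring, Function.iterate_succ_apply',
        Function.iterate_succ_apply']
      exact ⟨I_inv ih.1, I_inv ih.2.1, lt_of_le_of_lt (I_lip ih.1 ih.2.1) ih.2.2⟩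
  intro j
  rcases le_total j K with h | h
  · exact small j h
  · obtain ⟨i, rfl⟩ : ∃ i, j = i + K := ⟨j - K, by omega⟩
    exact (big i).2.2

lemma cell {d x y : ℝ} (hd : 0 < d) (hx : 0 ≤ x) (hy : 0 ≤ y) (h : ⌊x / d⌋₊ = ⌊y / d⌋₊) :
    |x - y| < d := by
  have a := Nat.floor_le (div_nonneg hx hd.le)
  have b := Nat.floor_le (div_nonneg hy hd.le)
  have a' := Nat.lt_floor_add_one (x / d)
  have b' := Nat.lt_floor_add_one (y / d)
  rw [h] at a a'
  have e : x - y = (x / d - y / d) * d := by field_simp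
  rw [e, abs_mul, abs_of_pos hd]
  have : |x / d - y / d| < 1 := abs_lt.mpr ⟨by linarith, by linarith⟩
  nlinarith

lemma cover_of_key {T : ℝ → ℝ} {F : Set ℝ} {U : SetRel ℝ ℝ} {n : ℕ} {κ : Type} (key : ℝ → κ)
    (S : Finset κ) (h1 : ∀ x ∈ F, key x ∈ S)
    (h2 : ∀ x ∈ F, ∀ y ∈ F, key x = key y → (x, y) ∈ dynEntourage T U n) :
    coverMincard T F U n ≤ S.card := by
  classical
  let rep : κ → ℝ := fun k => if h : ∃ x ∈ F, key x = k then h.choose else 0
  have hc : IsDynCoverOf T F U n (S.image rep) := by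
    intro x hx
    have h : ∃ y ∈ F, key y = key x := ⟨x, hx, rfl⟩
    refine ⟨rep (key x), by simpa using ⟨key x, h1 x hx, rfl⟩, ?_⟩
    have e : rep (key x) = h.choose := dif_pos h
    rw [e]
    exact h2 x hx _ h.choose_spec.1 h.choose_spec.2.symm
  exact hc.coverMincard_le_card.trans (by exact_mod_cast Finset.card_image_le)

lemma upper {e : ℝ} (he : 0 < e) : ∃ C : ℕ, ∀ n : ℕ,
    coverMincard B (Icc 0 1) {p | dist p.1 p.2 < e} n ≤ (C * (n + 1) : ℕ) := by
  classical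
  obtain ⟨d, hd, hs⟩ := shadow he
  refine ⟨(⌊1 / e⌋₊ + 1) * (⌊1 / d⌋₊ + 1), fun n => ?_⟩
  have ex : ∀ x : ℝ, ∃ m, n ≤ m ∨ (1 ≤ m ∧ e ≤ B^[m] x) := fun x => ⟨n, Or.inl le_rfl⟩
  refine (cover_of_key (fun x => (⌊x / e⌋₊, Nat.find (ex x), ⌊B^[Nat.find (ex x)] x / d⌋₊))
    (Finset.range (⌊1 / e⌋₊ + 1) ×ˢ Finset.range (n + 1) ×ˢ Finset.range (⌊1 / d⌋₊ + 1))
    ?_ ?_).trans (le_of_eq ?_)
  · intro x hx
    simp only [Finset.mem_product, Finset.mem_range, Nat.lt_succ_iff]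
    exact ⟨Nat.floor_mono (div_le_div_of_nonneg_right hx.2 he.le),
      Nat.find_min' _ (Or.inl le_rfl),
      Nat.floor_mono (div_le_div_of_nonneg_right (Bk_mem hx _).2 hd.le)⟩
  · intro x hx y hy h
    simp only [Prod.mk.injEq] at h
    obtain ⟨k1, k2, k3⟩ := h
    rw [mem_dynEntourage]
    intro k hk
    simp only [mem_ofPred_eq, Real.dist_eq]
    rcases Nat.eq_zero_or_pos k with rfl | hk0
    · exact cell he hx.1 hy.1 k1
    by_cases hm : k < Nat.find (ex x)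
    · have a := Nat.find_min (ex x) hm
      have b := Nat.find_min (ex y) (k2 ▸ hm)
      push Not at a b
      have := (Bk_mem hx k).1
      have := (Bk_mem hy k).1
      exact abs_lt.mpr ⟨by linarith [b.2 hk0], by linarith [a.2 hk0]⟩
    · have a := (Nat.find_spec (ex x)).resolve_left (by omega)
      have b := (Nat.find_spec (ex y)).resolve_left (by omega)
      rw [← k2] at b k3
      generalize Nat.find (ex x) = m at *
      obtain ⟨j, rfl⟩ : ∃ j, k = j + m := ⟨k - m, by omega⟩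
      obtain ⟨l, rfl⟩ : ∃ l, m = l + 1 := ⟨m - 1, by omega⟩
      rw [Function.iterate_add_apply B j (l + 1) x, Function.iterate_add_apply B j (l + 1) y]
      refine hs _ _ ⟨a.2, ?_⟩ ⟨b.2, ?_⟩ (cell hd (Bk_mem hx _).1 (Bk_mem hy _).1 k3) j
      · rw [Function.iterate_succ_apply']; exact (B_mem (Bk_mem hx l)).2
      · rw [Function.iterate_succ_apply']; exact (B_mem (Bk_mem hy l)).2
  · simp only [Finset.card_product, Finset.card_range]
    congr 1; ring

lemma hB : coverEntropy B (Icc 0 1) ≤ ENNReal.log (3 / 2) := by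
  rw [coverEntropy_eq_iSup_basis Metric.uniformity_basis_dist]
  refine iSup₂_le fun e he => ?_
  obtain ⟨C, hC⟩ := upper he
  rw [← expGrowthSup_pow]
  refine expGrowthSup_le_of_eventually_le (b := (2 * C : ℕ)) (by simp [ENNReal.mul_eq_top])
    (Eventually.of_forall fun n => ?_)
  refine (ENat.toENNReal_mono (hC n)).trans ?_
  have h1 : ((C * (n + 1) : ℕ) : ℝ) ≤ ((2 * C : ℕ) : ℝ) * (3 / 2) ^ n := by
    have := one_add_mul_le_pow (show (-2 : ℝ) ≤ 1 / 2 by norm_num) n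
    have h0 : (0 : ℝ) ≤ C := Nat.cast_nonneg C
    push_cast
    norm_num at this
    nlinarith
  have h2 := ENNReal.ofReal_le_ofReal h1
  rw [ENNReal.ofReal_mul (Nat.cast_nonneg _), ENNReal.ofReal_natCast, ENNReal.ofReal_natCast,
    ENNReal.ofReal_pow (by norm_num), ENNReal.ofReal_div_of_pos (by norm_num)] at h2
  simpa using h2

def J (b : Bool) : Set ℝ := if b then Icc (65 / 1000) (24 / 100) else Icc 0 (5 / 100)

lemma A_cont : Continuous A := by unfold A logi; fun_prop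

lemma horse (b : Bool) {y : ℝ} (hy : y ∈ Icc (0 : ℝ) (24 / 100)) : ∃ x ∈ J b, A x = y := by
  cases b
  · exact intermediate_value_Icc (by norm_num) A_cont.continuousOn
      ⟨by simpa [A, logi] using hy.1, hy.2.trans (by norm_num [A, logi])⟩
  · obtain ⟨q, hq, hq2⟩ : ∃ q ∈ Icc (20 / 100 : ℝ) (24 / 100), logi (11 / 4) q = 1 / 2 :=
      intermediate_value_Icc (by norm_num) (by unfold logi; fun_prop) (by norm_num [logi])
    have h0 : A q = 0 := by simp only [A, Function.comp_apply, hq2]; norm_num [logi]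
    obtain ⟨x, hx, hxy⟩ := intermediate_value_Icc' (show (65 / 1000 : ℝ) ≤ q by linarith [hq.1])
      A_cont.continuousOn (show y ∈ Icc (A q) (A (65 / 1000)) from
        ⟨h0 ▸ hy.1, hy.2.trans (by norm_num [A, logi])⟩)
    exact ⟨x, ⟨hx.1, hx.2.trans hq.2⟩, hxy⟩

lemma J_sub (b : Bool) : J b ⊆ Icc (0 : ℝ) (24 / 100) := by
  cases b <;> intro x hx <;> simp only [J, if_true, Bool.false_eq_true, if_false] at hx <;>
    constructor <;> linarith [hx.1, hx.2]

lemma itin (n : ℕ) : ∀ w : Fin n → Bool, ∃ x ∈ Icc (0 : ℝ) (24 / 100),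
    ∀ i : Fin n, A^[i] x ∈ J (w i) := by
  induction n with
  | zero => exact fun _ => ⟨0, by norm_num, fun i => i.elim0⟩
  | succ n ih =>
    intro w
    obtain ⟨y, hy, h⟩ := ih (fun i => w i.succ)
    obtain ⟨x, hx, rfl⟩ := horse (w 0) hy
    exact ⟨x, J_sub _ hx, fun i => Fin.cases hx (fun i => h i) i⟩

lemma lower (n : ℕ) :
    ((2 ^ n : ℕ) : ℕ∞) ≤ coverMincard A (Icc 0 1) {p | dist p.1 p.2 < 1 / 200} n := by
  refine le_iInf₂ fun s hs => ?_
  choose x hx hw using itin n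
  choose c hc hd using fun w => hs (show x w ∈ Icc (0 : ℝ) 1 from
    ⟨(hx w).1, by linarith [(hx w).2]⟩)
  have inj : Function.Injective c := by
    intro w w' h
    funext i
    have a := mem_dynEntourage.mp (hd w) i i.2
    have b := mem_dynEntourage.mp (hd w') i i.2
    simp only [mem_ofPred_eq, Real.dist_eq, h, abs_lt] at a b
    have p := hw w i
    have q := hw w' i
    by_contra hne
    cases h1 : w i <;> cases h2 : w' i <;> simp only [h1, h2, J, if_true, Bool.false_eq_true,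
      if_false, not_true_eq_false] at hne p q <;> linarith [p.1, p.2, q.1, q.2, a.1, a.2, b.1, b.2]
  have := Finset.card_le_card_of_injOn (s := Finset.univ) (t := s) c (fun w _ => hc w) inj.injOn
  simp only [Finset.card_univ, Fintype.card_fun, Fintype.card_bool, Fintype.card_fin] at this
  exact_mod_cast this

lemma hA : ENNReal.log 2 ≤ coverEntropy A (Icc 0 1) := by
  refine le_trans ?_ (coverEntropyEntourage_le_coverEntropy A _
    (Metric.dist_mem_uniformity (show (0 : ℝ) < 1 / 200 by norm_num)))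
  rw [← expGrowthSup_pow]
  refine expGrowthSup_monotone fun n => ?_
  simpa using ENat.toENNReal_mono (lower n)

theorem result : ∃ a₁ ∈ Icc (1 : ℝ) 4, ∃ a₂ ∈ Icc (1 : ℝ) 4, ∃ a₃ ∈ Icc (1 : ℝ) 4,
    coverEntropy (logi a₁ ∘ logi a₂ ∘ logi a₃) (Icc 0 1) <
      coverEntropy (logi a₁ ∘ logi a₃ ∘ logi a₂) (Icc 0 1) := by
  refine ⟨1, by norm_num, 11 / 4, by norm_num, 4, by norm_num, hB.trans_lt (lt_of_lt_of_le ?_ hA)⟩
  apply ENNReal.log_strictMono
  rw [ENNReal.div_lt_iff (by simp) (by simp)]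
  norm_num

end Pool.Agent.Results.MP_3cd2af_an.Order
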